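import Pool.Agent.H94.LP5.M38
import Pool.Agent.H94.LP5.M65
import Pool.Agent.H94.LP5.M67

/-!
# Module U9 (TB2): the core theorem with one large point

As `core` in `Pool/Agent/H51/TB/Core.lean` (delivered, complete; the proof can be adapted), with
`GM_of_counts_U` instead of `GM_of_counts`.  `μ` by pigeonhole (as in `NX/Final.lean`, `exists_count`):
`tot r S ≥ N - ell r m₀ ≥ N / 2` (`grow_one`, `m₀ ≤ d`), so for one of the at most `d` values
`μ ∈ [1, M]`, `S.count μ * ell r μ ≥ N / (2 (d + 1))`; `μ + M ≤ 2 M ≤ d`.  (`num` is stated for `m₀ ≤ d`.)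
-/

namespace Pool.Agent.H51.TB

open Finset Pool.Agent.H18.Ex Pool.Agent.H21.NX

private theorem UCore_ell_up (r c : ℕ) (hr : 1 ≤ r) : ell (r - 1) (c + 1) ≤ ell r (c + 1) := by
  obtain ⟨k, rfl⟩ : ∃ k, r = k + 1 := ⟨r - 1, by omega⟩
  rw [Nat.add_sub_cancel, ell_succ k c]
  exact Nat.le_add_left _ _

private theorem UCore_sum_replicate (d : ℕ) (T : Multiset ℕ) (hT : ∀ m ∈ T, m ≤ d) :
    ∑ m ∈ range (d + 1), Multiset.replicate (T.count m) m = T := by
  ext x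
  rw [Multiset.count_sum']
  simp only [Multiset.count_replicate]
  by_cases hx : x ∈ T
  · have h1 : x ∈ range (d + 1) := mem_range.2 (Nat.lt_succ_of_le (hT x hx))
    rw [Finset.sum_ite_eq' (range (d + 1)) x (fun m => T.count m), if_pos h1]
  · rw [Multiset.count_eq_zero_of_notMem hx]
    apply Finset.sum_eq_zero
    intro m _
    split_ifs with h
    · rw [h]
      exact Multiset.count_eq_zero_of_notMem hx
    · rfl

private theorem UCore_sum_tot (r d : ℕ) (T : Multiset ℕ) (hT : ∀ m ∈ T, m ≤ d) :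
    ∑ m ∈ range (d + 1), T.count m * ell r m = (T.map (ell r)).sum := by
  rw [Finset.sum_multiset_map_count]
  symm
  have h1 : T.toFinset ⊆ range (d + 1) := by
    intro x hx
    exact mem_range.2 (Nat.lt_succ_of_le (hT x (Multiset.mem_toFinset.1 hx)))
  refine (Finset.sum_subset h1 ?_).trans ?_
  · intro x _ hx
    rw [Multiset.mem_toFinset] at hx
    rw [Multiset.count_eq_zero_of_notMem hx, zero_smul]
  · exact Finset.sum_congr rfl fun m _ => smul_eq_mul _ _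

private theorem UCore_pigeon (r d : ℕ) (S : Multiset ℕ) (hS : ∀ m ∈ S, m ≤ d) (N : ℕ)
    (hN : N ≤ 2 * (S.map (ell r)).sum) :
    ∃ μ, N ≤ 2 * (d + 1) * (S.count μ * ell r μ) := by
  by_contra hcon
  push Not at hcon
  have h1 := UCore_sum_tot r d S hS
  have h2 : ∑ m ∈ range (d + 1), 2 * (d + 1) * (S.count m * ell r m) <
      ∑ _m ∈ range (d + 1), N :=
    Finset.sum_lt_sum_of_nonempty ⟨0, by simp⟩ fun m _ => hcon m
  rw [← Finset.mul_sum, h1, Finset.sum_const, card_range, smul_eq_mul] at h2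
  have h3 : 2 * (d + 1) * (S.map (ell r)).sum = (d + 1) * (2 * (S.map (ell r)).sum) := by ring
  rw [h3] at h2
  have h4 := Nat.lt_of_mul_lt_mul_left h2
  omega

theorem core_U (d : ℕ) : ∃ r₀ : ℕ, ∀ r : ℕ, r₀ ≤ r → ∀ (M m₀ : ℕ) (S : Multiset ℕ), 1 ≤ M →
    2 * M ≤ d → M + m₀ ≤ d + 1 → (∀ m ∈ S, 1 ≤ m ∧ m ≤ M) → ell r (d + 1) ≤ ell r m₀ + tot r S →
    GM (Sx (Fin (r + 1)) d) ((m₀ ::ₘ S).map Kind.free) := by
  set η : ℝ := 1 / (2 * ((d : ℝ) + 1)) with hηdef
  have hη : 0 < η := by positivity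
  obtain ⟨n₁, h₁⟩ := num d (min η (1 / 2)) (lt_min hη (by norm_num))
  obtain ⟨n₂, h₂⟩ := grow_one d 2
  refine ⟨max n₁ (max n₂ 1), fun r hr M m₀ S hM1 h2M hm₀ hS' hN => ?_⟩
  have hr1 : n₁ ≤ r + 1 := ((le_max_left _ _).trans hr).trans (Nat.le_succ r)
  have hr2 : n₂ ≤ r := ((le_max_left _ _).trans (le_max_right _ _)).trans hr
  have hr3 : 1 ≤ r := ((le_max_right _ _).trans (le_max_right _ _)).trans hr
  have hS : ∀ m ∈ S, 1 ≤ m ∧ m ≤ M ∧ m + M ≤ d + 1 := fun m hm => by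
    have := hS' m hm
    exact ⟨this.1, this.2, by omega⟩
  have he : 2 * ell r m₀ ≤ ell r (d + 1) := by
    have h3 := h₂ r hr2 m₀ (by omega)
    have h4 : 2 * ell r m₀ ≤ ell (r - 1) (d + 1) := by exact_mod_cast h3
    exact h4.trans (UCore_ell_up r d hr3)
  have hNpos : 1 ≤ ell r (d + 1) := ell_pos r (by omega)
  obtain ⟨μ, hpig⟩ := UCore_pigeon r d S (fun m hm => by have := hS m hm; omega) (ell r (d + 1))
    (by unfold tot at hN; omega)
  have hμS : μ ∈ S := by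
    rw [← Multiset.count_ne_zero]
    intro h0
    rw [h0, Nat.zero_mul, Nat.mul_zero] at hpig
    omega
  have hμ : 1 ≤ μ := (hS μ hμS).1
  have hμM : μ ≤ M := (hS μ hμS).2.1
  have hM : μ + M ≤ d := by omega
  have hη' : η * (ell r (d + 1) : ℝ) ≤ ((S.count μ * ell r μ : ℕ) : ℝ) := by
    have h3 : (ell r (d + 1) : ℝ) ≤ 2 * ((d : ℝ) + 1) * ((S.count μ * ell r μ : ℕ) : ℝ) := by
      exact_mod_cast hpig
    rw [hηdef, div_mul_eq_mul_div, one_mul, div_le_iff₀ (by positivity)]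
    linarith
  obtain ⟨T, hTS, hT1, hT2, hT3⟩ := choose_part (ell r) (ell r d) (ell r (d + 1)) (ell r m₀) μ S
    (fun m hm => ell_mono r (by have := hS m hm; omega)) he hN
  have hTm : ∀ m ∈ T, 1 ≤ m ∧ m ≤ M ∧ m + M ≤ d + 1 := fun m hm => hS m (Multiset.mem_of_le hTS hm)
  have hTd : ∀ m ∈ T, m ≤ d := fun m hm => by have := hTm m hm; omega
  have hsum := UCore_sum_tot r d T hTd
  obtain ⟨a, b, ha, hb, hab, hnum⟩ := h₁ (r + 1) hr1
  have habr : a + b - 1 = r := by omega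
  rw [habr] at hnum
  have hA : ∀ m, T.count m ≠ 0 → 1 ≤ m ∧ m ≤ M ∧ m + M ≤ d + 1 := fun m hm =>
    hTm m (Multiset.count_ne_zero.1 hm)
  have hdom : min η (1 / 2) * (ell r (d + 1) : ℝ) ≤ ((T.count μ * ell r μ : ℕ) : ℝ) := by
    have h0 : (0 : ℝ) ≤ (ell r (d + 1) : ℝ) := Nat.cast_nonneg _
    rcases hT3 with h | h
    · rw [h]
      exact (mul_le_mul_of_nonneg_right (min_le_left _ _) h0).trans hη'
    · have h5 : (ell r (d + 1) : ℝ) ≤ 2 * ((T.count μ * ell r μ : ℕ) : ℝ) := by exact_mod_cast h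
      have h6 := mul_le_mul_of_nonneg_right (min_le_right η (1 / 2)) h0
      linarith
  obtain ⟨c, hc, k1, k2, k3⟩ := hnum M μ m₀ (fun m => T.count m) hμ hμM hM (by omega) hA
    (by rw [hsum]; exact hT1) (by rw [hsum]; exact hT2) hdom
  have hGM := GM_of_counts_U ha hb hμ hμM hM hm₀ (fun m => T.count m) hA c hc k1 k2 k3
  rw [UCore_sum_replicate d T hTd] at hGM
  have hGM2 := GM_equiv (finSumFinEquiv.trans (finCongr hab)) d (m₀ ::ₘ T) hGM
  exact GM.mono (Multiset.map_le_map ((Multiset.cons_le_cons_iff m₀).2 hTS)) hGM2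

end Pool.Agent.H51.TB
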